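import Pool.Agent.L5helper81.AcB

/-!
The sharp bounds for all Taylor coefficients of alpha-convex functions, `0 < α < 1`.
-/

set_option autoImplicit false

namespace Pool.Agent.Results.MP_1f2de8_an.SharpBounds

open Metric Finset PowerSeries

/-- The class `M(α)`: the functions `f` that are analytic and injective on the open unit disc with
`f 0 = 0`, `f' 0 = 1` and `Re (α (1 + z f''/f') + (1 - α) z f'/f) > 0` at every point `z ≠ 0` of
the disc (at `z = 0` the expression is read as its limit `1`). -/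
def AlphaConvex (α : ℝ) (f : ℂ → ℂ) : Prop :=
  DifferentiableOn ℂ f (ball 0 1) ∧ Set.InjOn f (ball 0 1) ∧ f 0 = 0 ∧ deriv f 0 = 1 ∧
    ∀ z ∈ ball (0 : ℂ) 1, z ≠ 0 → 0 < (α * (1 + z * deriv (deriv f) z / deriv f z) +
      (1 - α) * (z * deriv f z / f z)).re

/-- The Taylor coefficient `a_n` at the origin. -/
noncomputable def taylor (f : ℂ → ℂ) (n : ℕ) : ℂ := iteratedDeriv n f 0 / (n.factorial : ℂ)

/-- The power series `G = ∑ k, ((2/α)(2/α + 1) ⋯ (2/α + k - 1) / k!) / (1 + α k) X ^ k`. -/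
noncomputable def G (α : ℝ) : PowerSeries ℝ :=
  PowerSeries.mk fun k => (∏ i ∈ range k, (2 / α + i) / (i + 1)) / (1 + α * k)

/-- The coefficient of `X ^ n` in `X * G ^ α`, by the binomial series
`G ^ α = ∑ j, (α (α - 1) ⋯ (α - j + 1) / j!) (G - 1) ^ j`. -/
noncomputable def A (α : ℝ) (n : ℕ) : ℝ :=
  ∑ j ∈ range n, (∏ i ∈ range j, (α - i) / (i + 1)) * coeff (n - 1) ((G α - 1) ^ j)

/-- For `0 < α < 1` and `n ≥ 1` the largest value of `|a_n|` over `M(α)` is `A α n`; one function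
`k` in `M(α)`, the one with `α (1 + z k''/k') + (1 - α) z k'/k = (1 + z) / (1 - z)`, has
`a_n = A α n` for all `n ≥ 1`. -/
theorem result (α : ℝ) (h0 : 0 < α) (h1 : α < 1) :
    (∀ n : ℕ, 1 ≤ n → IsGreatest {r : ℝ | ∃ f, AlphaConvex α f ∧ r = ‖taylor f n‖} (A α n)) ∧
    ∃ k, AlphaConvex α k ∧
      (∀ z ∈ ball (0 : ℂ) 1, z ≠ 0 → α * (1 + z * deriv (deriv k) z / deriv k z) +
        (1 - α) * (z * deriv k z / k z) = (1 + z) / (1 - z)) ∧
      ∀ n : ℕ, 1 ≤ n → taylor k n = (A α n : ℂ) := by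
  have hA : ∀ n : ℕ, coeff n (L5helper81.AC.VV α) = A α (n + 1) := fun n => by
    rw [L5helper81.AC.VV, L5helper81.AC.pw, coeff_mk]
    rfl
  obtain ⟨k, hk, hd, hc⟩ := L5helper81.AC.extremal h0 h1
  have hc' : ∀ n : ℕ, 1 ≤ n → taylor k n = (A α n : ℂ) := fun n hn => by
    obtain ⟨m, rfl⟩ : ∃ m, n = m + 1 := ⟨n - 1, by omega⟩
    exact (hc m).trans (by rw [hA])
  have hu : ∀ f, AlphaConvex α f → ∀ n : ℕ, 1 ≤ n → ‖taylor f n‖ ≤ A α n := fun f hf n hn => by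
    obtain ⟨m, rfl⟩ : ∃ m, n = m + 1 := ⟨n - 1, by omega⟩
    exact (L5helper81.AC.upper h0 h1 hf m).trans_eq (hA m)
  refine ⟨fun n hn => ⟨⟨k, hk, ?_⟩, ?_⟩, k, hk, hd, hc'⟩
  · have hnn : 0 ≤ A α n := (norm_nonneg _).trans (hu k hk n hn)
    rw [hc' n hn, Complex.norm_real, Real.norm_of_nonneg hnn]
  · rintro r ⟨f, hf, rfl⟩
    exact hu f hf n hn

end Pool.Agent.Results.MP_1f2de8_an.SharpBounds
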